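import Pool.Agent.H5.OR.Targets3

/-!
# Isomorphism problem for one-relator groups: `KP k p q` is an amalgamated product (KB)
-/

set_option autoImplicit false

open scoped Classical

namespace Pool.Agent.H60.ORS

open ORg

theorem pf_KB (KH : T_KH) : T_KB := by
  intro k p q
  obtain ⟨h1, h2, h3⟩ := KH k p q
  have hrel : ∀ r ∈ ({relA (FreeGroup.of ()) p q} : Set (FreeGroup (Option Unit))),
      FreeGroup.lift (fun z : Option Unit => match z with
        | none => (kg true : KP k p q) ^ k
        | some _ => (kg false : KP k p q)) r = 1 := by
    intro r hr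
    rw [Set.mem_singleton_iff.mp hr]
    simp only [relA, map_mul, map_inv, map_zpow, FreeGroup.map.of, FreeGroup.lift_apply_of]
    rw [h1]
    group
  let iX : Multiplicative ℤ →* KP k p q := zpowersHom (KP k p q) (kg true)
  let iB : BS p q →* KP k p q := PresentedGroup.toGroup hrel
  have hX1 : iX (Multiplicative.ofAdd 1) = kg true := by simp [iX]
  have hBa : iB (bsA p q) = kg false := PresentedGroup.toGroup.of hrel
  have hBt : iB (bsT p q) = kg true ^ k := PresentedGroup.toGroup.of hrel
  refine ⟨iX, iB, hX1, hBa, ⟨?_, ?_, ?_⟩⟩
  · intro h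
    induction h using Multiplicative.rec with
    | _ n =>
      simp only [zpowersHom_apply, toAdd_ofAdd, map_zpow, hBt]
      rw [← hX1, ← map_pow, ← ofAdd_nsmul]
      simp
  · intro K _ u v huv
    have e1 : (u (Multiplicative.ofAdd 1)) ^ k = v (bsT p q) := by
      have := huv (Multiplicative.ofAdd 1)
      simp only [zpowersHom_apply, toAdd_ofAdd, zpow_one] at this
      rw [← this, ← map_pow, ← ofAdd_nsmul]
      simp
    have e2 : bsT p q * bsA p q ^ p * (bsT p q)⁻¹ = bsA p q ^ q := by
      have := PresentedGroup.one_of_mem
        (rels := ({relA (FreeGroup.of ()) p q} : Set (FreeGroup (Option Unit))))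
        (Set.mem_singleton _)
      simp only [relA, map_mul, map_inv, map_zpow, FreeGroup.map.of] at this
      exact mul_inv_eq_one.mp this
    obtain ⟨f, hf1, hf2⟩ := h2 K (u (Multiplicative.ofAdd 1)) (v (bsA p q)) (by
      rw [e1, ← map_zpow, ← map_inv, ← map_mul, ← map_mul, e2, map_zpow])
    refine ⟨f, ?_, ?_⟩
    · intro x
      have : f.comp iX = u := by
        ext
        simp only [MonoidHom.comp_apply, hX1, hf1]
      exact DFunLike.congr_fun this x
    · intro x
      have : f.comp iB = v := by
        ext z
        cases z with
        | none =>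
          have h4 : (f.comp iB) (bsT p q) = v (bsT p q) := by
            rw [MonoidHom.comp_apply, hBt, map_pow, hf1, e1]
          exact h4
        | some y =>
          have h4 : (f.comp iB) (bsA p q) = v (bsA p q) := by
            rw [MonoidHom.comp_apply, hBa, hf2]
          exact h4
      exact DFunLike.congr_fun this x
  · intro K _ f g hx hb
    refine h3 K f g ?_ ?_
    · rw [← hX1]
      exact hx _
    · rw [← hBa]
      exact hb _

end Pool.Agent.H60.ORS
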