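import Pool.Agent.H5.OR.Targets3
import Pool.Agent.H5.OR.All

/-!
# Isomorphism problem for one-relator groups: normal form of a word (LN)
-/

set_option autoImplicit false

open scoped Classical

namespace Pool.Agent.H60.ORS

open ORg

theorem pf_LN (RT : T_RT) : T_LN := by
  intro Y _ v hv
  obtain ⟨v0, k, hk, hR, hvk⟩ := RT Y v hv
  by_cases hP : Prim v0
  · obtain ⟨α, i, hα⟩ := hP
    refine ⟨Unit, {y : Y // y ≠ i}, inferInstance, inferInstance,
      α.trans (FreeGroup.freeGroupCongr
        { toFun := fun y => if h : y = i then Sum.inl () else Sum.inr ⟨y, h⟩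
          invFun := fun z => Sum.elim (fun _ => i) (fun y => y.1) z
          left_inv := ?_
          right_inv := ?_ }), FreeGroup.of (), k, hk, ?_, ?_, Or.inr inferInstance⟩
    · intro y
      by_cases h : y = i
      · simp [h]
      · simp [h]
    · rintro (⟨⟩ | ⟨y, hy⟩)
      · simp
      · simp [hy]
    · rw [← hvk, map_pow, MulEquiv.trans_apply, hα]
      simp [fl]
    · intro x m hxm
      let φ : FreeGroup Unit →* Multiplicative ℤ :=
        FreeGroup.lift (fun _ => Multiplicative.ofAdd 1)
      have h1 : φ (x ^ m) = Multiplicative.ofAdd 1 := by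
        rw [hxm]
        simp [φ]
      rw [map_zpow] at h1
      have h2 : m * Multiplicative.toAdd (φ x) = 1 := by
        have := congrArg Multiplicative.toAdd h1
        simpa using this
      exact Int.isUnit_iff.mp (IsUnit.of_mul_eq_one _ h2)
  · obtain ⟨X1, X2, h1, h2, α, w1, hα, hR1, hW, hN⟩ := All.WR Y v0 hR hP
    exact ⟨X1, X2, h1, h2, α, w1, k, hk, by rw [← hvk, map_pow, hα], hR1, Or.inl ⟨hW, hN⟩⟩

end Pool.Agent.H60.ORS
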